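import Pool.Agent.Run7.h469.TR.Pf58a57

/-!
# The modular Schanuel conjecture with derivatives along Euclid's algorithm

We call a tuple `(t_1, …, t_k)` of integers good (not exceptional) if for all points `z_i` of the upper half-plane with `j(z_i) = t_i`
every relation of degree at most `δ`, whatever the height of its coefficients, between `z_i`, `j'(z_i)`, `j''(z_i)` (`3 k` numbers)
with coefficients which are polynomials in `2 π i, w_1, …, w_q` over a number field of degree at most `d` is trivial. With
`w_l = j'(τ_l)`, `τ_l` special, this is the bound `3 m_1 + m_2` of the modular Schanuel conjecture with derivatives for relations of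
bounded degree; for instance non-special `z_1, z_2` with integral invariants and special points.

The subtractive Euclidean algorithm replaces a pair `(a, b)` of positive integers by `(a, b - a)` or `(a - b, b)`. Let `k = 2`.
We prove that for all pairs `(a, b)` in `[1, X]^2` with at most `C X^2 H^(-η)` exceptions, for ALL pairs `(u, v)` with
`max(u, v) ≥ H` of the algorithm of `(a, b)` ALL pairs `t = M (u, v) + b` of nonzero integers are good, where `M` is an integral
`2 × 2` matrix with `det M ≠ 0`, `b` an integral vector and the entries of `M` and `b` are at most `max(u, v)^η`. The numbers `η > 0` and `C` depend only on `q`, `δ` and `d`, not on `w`. The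
bound for the number of the exceptions is small for large `H`, uniformly in `X`.

The starting theorem `AlgebraicInvariants` of this problem bounds the number of pairs of integers up to `U` which are not good by
`C U^(2 - c)`. For the
algorithm a pair `(u, v)` counts with the number of the pairs in `[1, X]^2` above it in the tree, at most `6 X^2 / (u v)`; a pair
with a small coordinate `v` counts too much, and so the chains `(u, v), (u - v, v), …` with a small `v` are treated as a whole.
-/

set_option autoImplicit false

namespace Pool.Agent.Results.MP_f58a57_nt.EuclideanAlgorithm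

open Finset MeasureTheory
open Run7.h469.Ab (euclidExceptions)
open Run7.h469.Vp (Combinations)
open Run7.h469.TR.Pf58a57 (few)
open Pool.Agent.Results.MP_f58a57_nt.AlgebraicInvariants (Exceptional)

/-- **The modular Schanuel conjecture with derivatives along Euclid's algorithm.** For all `q`, `δ`, `d` there are `η > 0` and `C`
such that for all `w` in `ℂ^q` and all `X` and `H ≥ 1`: for all but `C X^2 H^(-η)` of the pairs `(a, b)` in `[1, X]^2`, for all pairs
`(u, v)` with `max(u, v) ≥ H` of the subtractive Euclidean algorithm of `(a, b)`, all pairs `M (u, v) + b` of nonzero integers,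
`det M ≠ 0`, with entries of `M` and `b` at most `max(u, v)^η` are good (not exceptional). -/
theorem result (q d δ : ℕ) :
    ∃ η C : ℝ, 0 < η ∧ ∀ (w : Fin q → ℂ) (X H : ℕ), 1 ≤ H →
      ((euclidExceptions (Combinations η (fun t => ¬ Exceptional δ d w (fun i => (t i : ℂ)))) X H).card : ℝ) ≤
        C * (X : ℝ) ^ 2 * (H : ℝ) ^ (-η) := by
  obtain ⟨c, hc, hc1, C, hC, h⟩ := few q 2 d δ
  obtain ⟨η, C', hη, hE⟩ := Run7.h469.Vp.euclid_saving hc (by linarith) hC
  refine ⟨η, C', hη, fun w => hE _ ?_⟩
  have h1 := h w
  rw [Nat.cast_ofNat] at h1
  exact h1

end Pool.Agent.Results.MP_f58a57_nt.EuclideanAlgorithm
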