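import Pool.Agent.Run7.h469.TR.Pf58a57

/-!
# The modular Schanuel conjecture with derivatives in the Farey intervals around a real number

We call a tuple `(t_1, …, t_k)` of integers good (not exceptional) if for all points `z_i` of the upper half-plane with `j(z_i) = t_i`
every relation of degree at most `δ`, whatever the height of its coefficients, between `z_i`, `j'(z_i)`, `j''(z_i)` (`3 k` numbers)
with coefficients which are polynomials in `2 π i, w_1, …, w_q` over a number field of degree at most `d` is trivial. With
`w_l = j'(τ_l)`, `τ_l` special, this is the bound `3 m_1 + m_2` of the modular Schanuel conjecture with derivatives for relations of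
bounded degree; for instance non-special `z_1, z_2` with integral invariants and special points.

Let `k = 2`. We prove that for all real `α > 0` outside a set of Hausdorff dimension at most `1 - η`, and for almost all `α` with respect to
every measure of larger dimension, ALL but finitely many Farey intervals `[q / s, p / r]`, `p s - q r = 1`, around `α` have the
following property: for `(u, v)` one of the four pairs `(p, q)`, `(r, s)`, `(p, r)`, `(q, s)` ALL pairs `t = M (u, v) + b` of
nonzero integers are good, where `M` is an integral `2 × 2` matrix with `det M ≠ 0`, `b` an integral vector and the entries of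
`M` and `b` are at most `max(u, v)^η`. Here `η > 0` depends only on `q`, `δ` and `d`. For almost all real `α` this is true for ALL degrees `δ`, `d` at the same time. The Farey intervals around `α` are those on the path to `α` in the
Stern-Brocot tree.

The starting theorem `AlgebraicInvariants` of this problem bounds the number of pairs of integers up to `U` which are not good by
`C U^(2 - c)`. The starting theorem `BestApproximations` of this problem is about integer vectors for which a linear form is near an integer. A Farey interval around `α` can be much longer than `1 / r^2`, and `r / s` is not near a number determined by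
`α`. The chains of intervals with a common end are treated as a whole.
-/

set_option autoImplicit false

namespace Pool.Agent.Results.MP_f58a57_nt.FareyIntervals

open Finset MeasureTheory
open Run7.h469.Ab (badIntervals)
open Run7.h469.Vp (Combinations)
open Run7.h469.TR.Pf58a57 (few)
open Pool.Agent.Results.MP_f58a57_nt.AlgebraicInvariants (Exceptional)

/-- **The modular Schanuel conjecture with derivatives in Farey intervals.** Let `q` be a natural number. (1) For all `δ`, `d` there
is `η > 0` such that for all `w` in `ℂ^q`: for all `α > 0` outside a set of Hausdorff dimension at most `1 - η`, and for almost all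
`α > 0` for all measures of a dimension `m > 1 - η`, there are only finitely many `q / s ≤ α ≤ p / r`, `p s - q r = 1`, such that for
one of the pairs `(u, v) = (p, q)`, `(r, s)`, `(p, r)`, `(q, s)` some pair `M (u, v) + b` of nonzero integers, `det M ≠ 0`, with
entries of `M` and `b` at most `max(u, v)^η`, is exceptional. (2) For all `w`, for almost all `α > 0`, for ALL `δ`, `d` there is
`η > 0` such that this is true. -/
theorem result (q : ℕ) :
    (∀ δ d : ℕ, ∃ η : ℝ, 0 < η ∧ ∀ w : Fin q → ℂ,
      (∃ E : Set ℝ, dimH E ≤ ENNReal.ofReal (1 - η) ∧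
        ∀ α : ℝ, 0 < α → α ∉ E → (badIntervals (Combinations η (fun t => ¬ Exceptional δ d w (fun i => (t i : ℂ)))) α).Finite) ∧
      ∀ (μ : Measure ℝ) (C₁ m : ℝ), 1 - η < m →
        (∀ (x ρ : ℝ), 0 < ρ → μ (Metric.closedBall x ρ) ≤ ENNReal.ofReal (C₁ * ρ ^ m)) →
        ∀ᵐ α ∂μ, 0 < α → (badIntervals (Combinations η (fun t => ¬ Exceptional δ d w (fun i => (t i : ℂ)))) α).Finite) ∧
    ∀ w : Fin q → ℂ, ∀ᵐ α : ℝ, ∀ δ d : ℕ, ∃ η : ℝ, 0 < η ∧
      (0 < α → (badIntervals (Combinations η (fun t => ¬ Exceptional δ d w (fun i => (t i : ℂ)))) α).Finite) := by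
  have key : ∀ δ d : ℕ, ∃ η : ℝ, 0 < η ∧ ∀ w : Fin q → ℂ,
      (∃ E : Set ℝ, dimH E ≤ ENNReal.ofReal (1 - η) ∧
        ∀ α : ℝ, 0 < α → α ∉ E → (badIntervals (Combinations η (fun t => ¬ Exceptional δ d w (fun i => (t i : ℂ)))) α).Finite) ∧
      ∀ (μ : Measure ℝ) (C₁ m : ℝ), 1 - η < m →
        (∀ (x ρ : ℝ), 0 < ρ → μ (Metric.closedBall x ρ) ≤ ENNReal.ofReal (C₁ * ρ ^ m)) →
        ∀ᵐ α ∂μ, 0 < α → (badIntervals (Combinations η (fun t => ¬ Exceptional δ d w (fun i => (t i : ℂ)))) α).Finite := by
    intro δ d
    obtain ⟨c, hc, hc1, C, hC, h⟩ := few q 2 d δ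
    obtain ⟨η, hη, hE⟩ := Run7.h469.Vp.farey_saving hc (by linarith) hC
    refine ⟨η, hη, fun w => hE _ ?_⟩
    have h1 := h w
    rw [Nat.cast_ofNat] at h1
    exact h1
  refine ⟨key, fun w => ?_⟩
  rw [ae_all_iff]
  intro δ
  rw [ae_all_iff]
  intro d
  obtain ⟨η, hη, h⟩ := key δ d
  filter_upwards [Run7.h469.Vp.ae_of (by linarith) (h w).2] with α hα
  exact ⟨η, hη, hα⟩

end Pool.Agent.Results.MP_f58a57_nt.FareyIntervals
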