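import Pool.Agent.Run7.h469.TR.Pf58a57
import Pool.Agent.Run7.h469.Vm

/-!
# The modular Schanuel conjecture with derivatives: products of linear forms in almost all integer vectors, and in expansions of real vectors

We call a tuple `(t_1, …, t_k)` of integers good (not exceptional) if for all points `z_i` of the upper half-plane with `j(z_i) = t_i`
every relation of degree at most `δ`, whatever the height of its coefficients, between `z_i`, `j'(z_i)`, `j''(z_i)` (`3 k` numbers)
with coefficients which are polynomials in `2 π i, w_1, …, w_q` over a number field of degree at most `d` is trivial. With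
`w_l = j'(τ_l)`, `τ_l` special, this is the bound `3 m_1 + m_2` of the modular Schanuel conjecture with derivatives for relations of
bounded degree; for instance non-special `z_1, z_2` with integral invariants and special points.

Let `k, h ≥ 1` (for `h = 1` there are no products, only linear forms). We prove that for all integer vectors `x` in `[-X, X]^D`
with at most `C' Q^(k h (D + 2)) X^(D - c)` exceptions, `C'` depending on `D`, ALL `k`-tuples `t` of products of `h`
linear forms, `t_i = ∏_(j ≤ h) y_(i,j)` with `y = M x + b`, `M` an integral matrix of rank `k h`, `b` an integral vector, the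
entries of `M` and `b` at most `Q`, all `y_(i,j) ≠ 0`, are good. Here `Q` can be a small power of `X`. We prove a similar result
for the integer vectors near `N_n α`, `N_n` a lacunary sequence (for instance the truncations of the expansions in base `g`,
`N_n = g^n`), for all real vectors `α` outside a set of dimension less than `D`, and `M`, `b` with entries up to a power of `N_n`.

The starting theorem `AlgebraicInvariants` of this problem bounds the number of tuples of integers up to `U` which are not good by
`C U^(k - c)`. The products of `h` integers form a set of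
density zero, and so the result for `h ≥ 2` does not follow from this number alone: the divisor bound shows that few vectors `y`
have a bad tuple of products, and for each of the possible `M`, `b` the map `x ↦ M x + b` has small fibres.
-/

set_option autoImplicit false

namespace Pool.Agent.Results.MP_f58a57_nt.ProductsOfLinearForms

open Finset MeasureTheory
open Run7.h469.Vk (Hits Lacunary Generic Avoids)
open Run7.h469.Vm (ProductIn)
open Run7.h469.TR.Pf58a57 (few)
open Pool.Agent.Results.MP_f58a57_nt.AlgebraicInvariants (Exceptional)

/-- The `k`-tuples of nonzero integers which are exceptional. -/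
def Bad (δ d : ℕ) (k : ℕ) {q : ℕ} (w : Fin q → ℂ) : Set (Fin k → ℤ) :=
  {t | (∀ i, t i ≠ 0) ∧ ¬ ¬ Exceptional δ d w (fun i => (t i : ℂ))}

/-- **The modular Schanuel conjecture with derivatives for products of linear forms.** Let `k ≥ 1`. For all `q`, `δ`, `d` there
is `c > 0` and for all `h ≥ 1` there is `C` such that for all `w` in `ℂ^q`: (1) for all `D` and `X, Q ≥ 1`, for all but
`C ((D + 1)^(k h) 3^((k h + 1) (D + 1))) Q^(k h (D + 2)) X^(D - c)` of the integer vectors `x` in `[-X, X]^D` no tuple of the
products `∏_(j ≤ h) y_(i,j)` of nonzero coordinates of a vector `y = M x + b`, `M` integral of rank `k h`, with entries of `M` and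
`b` at most `Q`, is bad (exceptional); (2) for lacunary `N_i` and `η ≥ 0`, outside a set of `α` in `ℝ^D` of dimension at most
`D - c + k h (D + 2) η`, for all `A`, for all large `i` the same is true for the integer vectors `x` with `|x - N_i α| ≤ A` and
`M`, `b` with entries at most `A N_i^η`; (3) in particular it is true for almost all `α`, if `k h (D + 2) η < c`. -/
theorem result (q k d δ : ℕ) (hk : 1 ≤ k) :
    ∃ c : ℝ, 0 < c ∧ ∀ h : ℕ, 1 ≤ h → ∃ C : ℝ, ∀ w : Fin q → ℂ,
      (∀ D X Q : ℕ, 1 ≤ X → 1 ≤ Q →
        (({x : Fin D → ℤ | (∀ j, |x j| ≤ X) ∧ x ∈ Hits (ProductIn h (Bad δ d k w)) D Q}.ncard : ℕ) : ℝ) ≤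
          C * (((D : ℝ) + 1) ^ (k * h) * 3 ^ ((k * h + 1) * (D + 1))) * (Q : ℝ) ^ (k * h * (D + 2)) *
            (X : ℝ) ^ ((D : ℝ) - c)) ∧
      (∀ D : ℕ, 1 ≤ D → ∀ N : ℕ → ℝ, Lacunary N → ∀ η : ℝ, 0 ≤ η →
        Generic ((D : ℝ) - c + k * h * (D + 2) * η)
          (fun α : Fin D → ℝ => Avoids (ProductIn h (Bad δ d k w)) N η α)) ∧
      ∀ D : ℕ, 1 ≤ D → ∀ N : ℕ → ℝ, Lacunary N → ∀ η : ℝ, 0 ≤ η → k * h * (D + 2) * η < c →
        ∀ᵐ α : Fin D → ℝ, Avoids (ProductIn h (Bad δ d k w)) N η α := by
  obtain ⟨c, hc, hc1, C, hC, hf⟩ := few q k d δ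
  refine ⟨c / 2, by linarith, fun h hh => ?_⟩
  have hh1 : (1 : ℝ) ≤ h := by exact_mod_cast hh
  obtain ⟨C', -, key⟩ := Run7.h469.Vm.products_of_forms (k := k) (b := h) hk hh hC (c := c) (c' := c / 2)
    (by linarith) (by linarith) (by nlinarith)
  exact ⟨C', fun w => key _ (hf w)⟩

end Pool.Agent.Results.MP_f58a57_nt.ProductsOfLinearForms
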