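import Mathlib
import Pool.Agent.Run7.h643.JW.All

/-!
# Points with integral modular invariants, chosen one after the other in windows in arbitrary position

Let `j` be the modular invariant. The conjecture says that for points `z_1, …, z_n` of the upper half-plane in different
orbits of `GL_2(ℚ)` with `j'(z_i) ≠ 0`, `m_1` of them not special and `m_2` special, the numbers `z_i, j(z_i), j'(z_i),
j''(z_i)` generate a field of transcendence degree at least `3 m_1 + m_2`.

We consider points whose modular invariants are integers, in `t` windows. In the window number `a` the invariants are the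
numbers `ε_a (N_a + n)`, `n ≤ H_a`, `ε_a = ± 1`, `N_a ≥ (H_a + 2)^((δ + 2)^C)`, and `r_a` of them are chosen. The place `N_a`,
the size `H_a` and the sign `ε_a` of the window may depend on the integers chosen in the earlier windows; so the windows may
be in any position to each other, near to each other or very far from each other (for instance `N_2` may be much larger than
the exponential of `N_1`), they may overlap or be equal. At most `q + 2 + 3 ∑_(b<a) r_b` integers have to be avoided in the
window number `a`; they depend only on the integers chosen before. For all other choices and **all** points `z` with these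
invariants there is no relation of degree at most `δ` over number fields of degree at most `δ` between the `3 ∑ r_a` numbers
`z`, `j'(z)`, `j''(z)`, `2πi` and `w_1, …, w_q`, besides relations between `2πi` and the `w`. The `w` are arbitrary, for
instance the values of `j'` at `m_2` special points; there is no bound for the heights of the coefficients.

For `t = 1` this is the starting result `GrowingDegreeWindows` of this problem. The relations with bounded degree between
points in different windows cannot be treated as relations with the points of the earlier windows as constants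
only: the exceptional integers would depend on the points over the earlier integers, which are infinitely many. We use that
the numbers of the points of one orbit of `SL_2(ℤ)` are images of each other under birational maps of bounded degree with
dense image, so that it is enough to consider one point for each integer.
-/

set_option autoImplicit false

namespace Pool.Agent.Results.MP_f58a57_nt.SuccessiveWindows

/-- the normalised Eisenstein series of weight `4` -/
noncomputable def E4 (τ : ℂ) : ℂ :=
  1 + 240 * ∑' m : ℕ, ((ArithmeticFunction.sigma 3 (m + 1) : ℕ) : ℂ) *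
    Complex.exp (2 * (Real.pi : ℂ) * Complex.I * ((m : ℂ) + 1) * τ)

/-- the normalised Eisenstein series of weight `6` -/
noncomputable def E6 (τ : ℂ) : ℂ :=
  1 - 504 * ∑' m : ℕ, ((ArithmeticFunction.sigma 5 (m + 1) : ℕ) : ℂ) *
    Complex.exp (2 * (Real.pi : ℂ) * Complex.I * ((m : ℂ) + 1) * τ)

/-- the modular invariant `j = q⁻¹ + 744 + 196884 q + ⋯` -/
noncomputable def J (τ : ℂ) : ℂ := 1728 * E4 τ ^ 3 / (E4 τ ^ 3 - E6 τ ^ 2)

/-- the numbers `z`, `j'(z)`, `j''(z)` -/
noncomputable def numbers (z : ℂ) : Fin 3 → ℂ := ![z, deriv J z, deriv (deriv J) z]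

/-- The numbers `x` are free up to degree `δ` over `2πi` and `w`: if `K` is a number field of degree at most `δ` and `P` is a
polynomial over `K` of degree at most `δ` with `P(2πi, w, x) = 0`, then `P(2πi, w, Y) = 0` identically in `Y`. -/
def Free (δ : ℕ) {q : ℕ} {ι : Type} (w : Fin q → ℂ) (x : ι → ℂ) : Prop :=
  ∀ K : IntermediateField ℚ ℂ, FiniteDimensional ℚ K → Module.finrank ℚ K ≤ δ →
  ∀ P : MvPolynomial (Option (Fin q) ⊕ ι) K, P.totalDegree ≤ δ →
    MvPolynomial.aeval (Sum.elim (fun o => o.elim (2 * Real.pi * Complex.I) w) x) P = 0 →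
    MvPolynomial.aeval (Sum.elim (fun o => MvPolynomial.C (o.elim (2 * Real.pi * Complex.I) w)) MvPolynomial.X) P =
      (0 : MvPolynomial ι ℂ)

open Pool.Agent.Y120.J (si jt)
open Pool.Agent.Y120.K (wo)
open Pool.Agent.TH21.MS (jj)

theorem J_eq : J = Pool.Agent.TH21.MS.jj := by
  have h4 : E4 = Pool.Agent.TH21.MS.E4 := funext Pool.Agent.Y120.J.E4_same
  have h6 : E6 = Pool.Agent.TH21.MS.E6 := funext Pool.Agent.Y120.J.E6_same
  funext τ
  unfold J Pool.Agent.TH21.MS.jj
  rw [h4, h6]

theorem numbers_eq (z : ℂ) : numbers z = jt z := by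
  unfold numbers jt
  rw [J_eq]

theorem wo_eq {q : ℕ} (w : Fin q → ℂ) (o : Option (Fin q)) : o.elim (2 * Real.pi * Complex.I) w = wo w o := by
  rcases o with _ | o <;> rfl

theorem free_of {δ q : ℕ} {ι : Type} {w : Fin q → ℂ} {x : ι → ℂ}
    (h : ∀ K : IntermediateField ℚ ℂ, FiniteDimensional ℚ K → Module.finrank ℚ K ≤ δ →
      ∀ P : MvPolynomial (Option (Fin q) ⊕ ι) K, P.totalDegree ≤ δ →
        MvPolynomial.aeval (Sum.elim (wo w) x) P = 0 → ∀ u, MvPolynomial.aeval (Sum.elim (wo w) u) P = 0) :
    Free δ w x := by
  intro K hK hKd P hPd hP0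
  have h1 : (fun o : Option (Fin q) => o.elim (2 * Real.pi * Complex.I) w) = wo w := funext (wo_eq w)
  rw [h1] at hP0
  apply MvPolynomial.funext
  intro u
  rw [Pool.Agent.Run7.h643.MX.eval_aeval (fun o : Option (Fin q) => o.elim (2 * Real.pi * Complex.I) w), map_zero, h1]
  exact h K hK hKd P hPd hP0 u

/-- The choices: `r a` natural numbers in the window number `a`. -/
abbrev Choices {t : ℕ} (r : Fin t → ℕ) : Type := ∀ a : Fin t, Fin (r a) → ℕ

/-- For all `q` and `r_1, …, r_t` there is `C` such that for all `δ`, all `w_1, …, w_q ∈ ℂ` and all functions `N_a`, `H_a`,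
`ε_a = ± 1` of the choices `n_b`, `b < a`, there are sets `S_a`, functions of the same choices, of at most
`q + 2 + 3 ∑_(b<a) r_b` numbers with this property: let `n` be choices such that for all `a` `(H_a + 2)^((δ + 2)^C) ≤ N_a` and
the `n_(a,i)` are distinct numbers `≤ H_a` outside `S_a`; then for all points `z_(a,i)` of the upper half-plane with
`j(z_(a,i)) = ε_a (N_a + n_(a,i))` the numbers `z_(a,i)`, `j'(z_(a,i))`, `j''(z_(a,i))` are free up to degree `δ` over `2πi` and
`w`. -/
theorem result (q : ℕ) {t : ℕ} (r : Fin t → ℕ) : ∃ C : ℕ, ∀ (δ : ℕ) (w : Fin q → ℂ) (N H : Fin t → Choices r → ℕ)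
    (ε : Fin t → Choices r → ℤ), (∀ a n, ε a n = 1 ∨ ε a n = -1) →
    (∀ a n n', (∀ b, b < a → n b = n' b) → H a n = H a n' ∧ N a n = N a n' ∧ ε a n = ε a n') →
    ∃ S : Fin t → Choices r → Finset ℕ,
      (∀ a n, (S a n).card ≤ q + 2 + 3 * ∑ b ∈ Finset.Iio a, r b) ∧
      (∀ a n n', (∀ b, b < a → n b = n' b) → S a n = S a n') ∧
      ∀ n : Choices r, (∀ a, (H a n + 2) ^ ((δ + 2) ^ C) ≤ N a n) → (∀ a, Function.Injective (n a)) →
        (∀ a i, n a i ≤ H a n ∧ n a i ∉ S a n) →
        ∀ z : ∀ a, Fin (r a) → ℂ, (∀ a i, 0 < (z a i).im ∧ J (z a i) = ε a n * (N a n + n a i)) →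
          Free δ w fun v : (Σ a, Fin (r a) × Fin 3) => numbers (z v.1 v.2.1) v.2.2 := by
  classical
  obtain ⟨E, ⟨C, hC⟩, hE⟩ := Pool.Agent.Run7.h643.JW.jwinM q r
  refine ⟨C, fun δ w N H ε hε hdep => ?_⟩
  set s : Fin t → Choices r → Bool := fun a n => if ε a n = 1 then true else false with hs
  have hsi : ∀ a n, si (s a n) = ε a n := by
    intro a n
    rw [hs]
    simp only
    rcases hε a n with h | h
    · rw [if_pos h, h]
      rfl
    · rw [if_neg (by rw [h]; norm_num), h]
      rfl
  obtain ⟨S, hS1, hS2, hS3⟩ := hE δ w N H s (fun a n n' h => by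
    obtain ⟨h1, h2, h3⟩ := hdep a n n' h
    refine ⟨h1, h2, ?_⟩
    rw [hs]
    simp only
    rw [h3])
  refine ⟨S, fun a n => ?_, hS2, fun n hN hinj hn z hz => ?_⟩
  · refine (hS1 a n).trans ?_
    rw [← Finset.sum_mul]
    omega
  · refine free_of fun K hK hKd P hPd hP0 u => ?_
    refine hS3 n (fun a => (Nat.pow_le_pow_right (by omega) (hC δ)).trans (hN a)) hinj hn
      (fun a i => ⟨z a i, (hz a i).1⟩) (fun a i => ?_) K hK hKd P hPd ?_ u
    · have h1 := (hz a i).2
      rw [J_eq, ← hsi a n] at h1
      rw [Nat.cast_add]
      exact h1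
    · rw [← hP0]
      congr 2
      funext x
      rcases x with x | x
      · simp only [Sum.elim_inl]
      · simp only [Sum.elim_inr]
        rw [numbers_eq]

end Pool.Agent.Results.MP_f58a57_nt.SuccessiveWindows
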